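import Mathlib
import Pool.Prelude.Def_F_75ec743f
import Pool.Agent.Esc405.Main

set_option autoImplicit false
open N3d24e4eb

namespace Pool.Agent.Results.MP_071f48_an.GrowthOrder

/-- The worst-case escape length `S(n)` is at least a fixed positive power of `n` for all large `n`,
and at most `5 n` for all `n ≥ 1`. -/
theorem result :
    (∃ c : ℝ, 0 < c ∧ ∃ n₀ : ℕ, ∀ n : ℕ, n₀ ≤ n → ENNReal.ofReal ((n : ℝ) ^ c) ≤ worstCase n) ∧
      ∀ n : ℕ, 1 ≤ n → worstCase n ≤ ENNReal.ofReal (5 * n) :=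
  Esc405.main

end Pool.Agent.Results.MP_071f48_an.GrowthOrder
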