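import Mathlib
import Pool.Prelude.Def_F_75ec743f
import Pool.Agent.Helper121.EscapeLower

set_option autoImplicit false
open N3d24e4eb

namespace Pool.Agent.Results.MP_071f48_an.LowerBound

/-- For every degree `n`, the worst-case escape length `S(n)` is at least `√(log n) / 600`. -/
theorem result : ∀ n : ℕ,
    ENNReal.ofReal (Real.sqrt (Real.log n) / 600) ≤ worstCase n :=
  fun n => Pool.Agent.Helper121.Escape.lower_bound n

end Pool.Agent.Results.MP_071f48_an.LowerBound
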